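import Pool.Agent.Y305.HG.Asm

/-!
# MP_bff03b_an: boundary singular sets which are not null for the gauge `r |log r|^4`

Q1 asks whether the boundary singular set of every area-minimizing current is `H^(m-1)`-null. Here
`m = 2`: there are two disjoint smooth closed curves in `ℝ⁴` and a mass-minimizing integer
rectifiable current `T` which they bound whose set of boundary singular points (even the set of
the genuine ones) has positive Hausdorff content, hence positive Hausdorff measure, with respect to
the gauge `r (1 + |log r|)^4`. So the gauge `r` in Q1 cannot be replaced by this slightly larger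
one. The definitions are in `Pool/Agent/Y305/BC/Defs.lean` (those of
`MP_08407f_an.GenuineDimensionOne`, whose example is used) and below.
-/

set_option autoImplicit false

open Metric Set
open scoped ENNReal

open Pool.Agent.Y305.BC

namespace Pool.Agent.Results.MP_bff03b_an.GaugeSharpness

/-- the boundary singular set: the points of `Γ` which are not boundary regular points -/
def SingB {n : ℕ} (c : Fin n → ℝ → E) (T : F2 → ℝ) : Set E :=
  {x | (∃ i t, x = c i t) ∧ ¬ RegAt univ T x}

/-- the gauge `h(r) = r (1 + |log r|)^4`, with `h(0) = 0` and `h(∞) = ∞` -/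
noncomputable def gauge (r : ℝ≥0∞) : ℝ≥0∞ := r * ENNReal.ofReal ((1 + |Real.log r.toReal|) ^ 4)

/-- There are two disjoint smooth closed curves in `ℝ⁴` bounding a mass-minimizing integer
rectifiable current such that `∑ h(diam U_n) ≥ 1/64` for all coverings `(U_n)` of its boundary
singular set, and of its set of genuine boundary singularities. -/
theorem result : ∃ (c : Fin 2 → ℝ → E) (T : F2 → ℝ), ClosedCurves c ∧ Minimizing c T ∧
    (∀ U : ℕ → Set E, {x | Genuine c T x} ⊆ ⋃ n, U n → 1 / 64 ≤ ∑' n, gauge (ediam (U n))) ∧
    ∀ U : ℕ → Set E, SingB c T ⊆ ⋃ n, U n → 1 / 64 ≤ ∑' n, gauge (ediam (U n)) := by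
  obtain ⟨c, T, h1, h2, h3⟩ := Pool.Agent.Y305.HG.main
  refine ⟨c, T, h1, h2, h3, fun U hU => h3 U (Subset.trans ?_ hU)⟩
  rintro x ⟨hx1, hx2, -⟩
  exact ⟨hx1, hx2⟩

end Pool.Agent.Results.MP_bff03b_an.GaugeSharpness
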